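import Pool.Agent.helper21.OE.SpecC

/-!
# MP_2e0e07_nt, project OE: row CMG
-/

set_option autoImplicit false

namespace Pool.Agent.OE

open MvPolynomial Matrix

/-- complex conjugation as a ring homomorphism -/
noncomputable def CMG_s (d t : ℤ) : Oz d t →+* Oz d t := starRingEnd (Oz d t)

theorem CMG_s_apply (d t : ℤ) (x : Oz d t) : CMG_s d t x = star x := rfl

theorem CMG_cm {d t : ℤ} (g : Mat d t) : cm g = g.map (CMG_s d t) := rfl

theorem CMG_nat {d t : ℤ} (n : ℕ) : star ((n : ℕ) : Oz d t) = ((n : ℕ) : Oz d t) := by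
  rw [← CMG_s_apply, map_natCast]

theorem CMG_dvd {d t : ℤ} (n : ℕ) (x : Oz d t) (h : ((n : ℕ) : Oz d t) ∣ x) :
    ((n : ℕ) : Oz d t) ∣ star x := by
  obtain ⟨y, rfl⟩ := h
  refine ⟨star y, ?_⟩
  rw [← CMG_s_apply, map_mul, map_natCast, CMG_s_apply]

theorem CMG : CMG_stmt := by
  intro d t
  have hmul : ∀ g h : Mat d t, cm (g * h) = cm g * cm h := by
    intro g h
    rw [CMG_cm, CMG_cm, CMG_cm, Matrix.map_mul]
  refine ⟨hmul, ?_, ?_, ?_, ?_, ?_, ?_, ?_, ?_, ?_⟩
  · intro g u
    funext i
    exact RingHom.map_mulVec (CMG_s d t) g u i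
  · intro g
    exact RingHom.map_adjugate (CMG_s d t) g
  · intro g
    exact ⟨Matrix.GeneralLinearGroup.map (CMG_s d t) g, rfl⟩
  · intro g
    funext i j
    exact star_star (g i j)
  · intro u
    funext i
    exact star_star (u i)
  · intro u
    constructor
    · intro h
      funext i
      have h1 := congrFun h i
      have h2 : star (u i) = 0 := h1
      exact star_eq_zero.1 h2
    · intro h
      rw [h]
      funext i
      exact star_zero _
  · intro ℓ g
    unfold al
    rw [hmul]
    congr 1
    funext i j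
    fin_cases i <;> fin_cases j
    · exact star_one _
    · exact star_zero _
    · exact star_zero _
    · exact CMG_nat ℓ
  · intro n x
    refine ⟨fun h => ?_, fun h => CMG_dvd n x h⟩
    have h1 := CMG_dvd n _ h
    rwa [star_star] at h1
  · intro x
    exact QuadraticAlgebra.norm_star x

end Pool.Agent.OE
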